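import Mathlib

set_option autoImplicit false

namespace Pool.Agent.Results.MP_1e0c69_ag.Counterexample

open MvPolynomial

/-- Waring rank of `F` in degree `d`: the least number of `d`-th powers of linear forms summing
to `F` (infinite if there is no such expression). -/
noncomputable def WR {σ : Type} (d : ℕ) (F : MvPolynomial σ ℂ) : ℕ∞ :=
  ⨅ (w : ℕ) (_ : ∃ l : Fin w → MvPolynomial σ ℂ,
    (∀ i, (l i).IsHomogeneous 1) ∧ F = ∑ i, l i ^ d), (w : ℕ∞)

theorem linear_form {p : MvPolynomial (Fin 3) ℂ} (h : p.IsHomogeneous 1) :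
    ∃ a b c : ℂ, p = C a * X 0 + C b * X 1 + C c * X 2 := by
  have h1 : p ∈ homogeneousSubmodule (Fin 3) ℂ 1 := h
  rw [homogeneousSubmodule_one_eq_span_X] at h1
  obtain ⟨c, hc⟩ := (Submodule.mem_span_range_iff_exists_fun ℂ).mp h1
  refine ⟨c 0, c 1, c 2, ?_⟩
  rw [← hc, Fin.sum_univ_three]
  simp [smul_eq_C_mul]

theorem det_zero {a b s t : ℂ} (h1 : a ^ 3 + b ^ 3 = 0) (h2 : a ^ 2 * t + b ^ 2 * s = 0) :
    t * b - s * a = 0 := by
  by_contra hne
  have ha : a ^ 2 * (t * b - s * a) = 0 := by linear_combination b * h2 - s * h1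
  have hb : b ^ 2 * (t * b - s * a) = 0 := by linear_combination t * h1 - a * h2
  have ha0 : a = 0 := by simpa [hne] using ha
  have hb0 : b = 0 := by simpa [hne] using hb
  apply hne
  rw [ha0, hb0]; ring

theorem par_zero {a b c d e f : ℂ} (h1 : a ^ 3 + b ^ 3 = 0) (h2 : a * d = c * b)
    (h3 : a * f = e * b) : a * c * e + b * d * f = 0 := by
  by_cases ha : a = 0
  · have hb : b = 0 := by simpa [ha] using h1
    rw [ha, hb]; ring
  · have : a ^ 2 * (a * c * e + b * d * f) = 0 := by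
      linear_combination c * e * h1 + b * a * f * h2 + b * c * b * h3
    simpa [ha] using this

theorem no_two (v p q : MvPolynomial (Fin 3) ℂ) (hv : v.IsHomogeneous 1)
    (hp : p.IsHomogeneous 1) (hq : q.IsHomogeneous 1) :
    X 0 * X 1 * X 2 + v * (X 0 * X 1 + X 1 * X 2 + X 0 * X 2) ≠ p ^ 3 + q ^ 3 := by
  obtain ⟨a, b, c, rfl⟩ := linear_form hv
  obtain ⟨a1, a2, a3, rfl⟩ := linear_form hp
  obtain ⟨b1, b2, b3, rfl⟩ := linear_form hq
  intro h
  have E : ∀ x y z : ℂ, x * y * z + (a * x + b * y + c * z) * (x * y + y * z + x * z) =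
      (a1 * x + a2 * y + a3 * z) ^ 3 + (b1 * x + b2 * y + b3 * z) ^ 3 := by
    intro x y z
    have := congrArg (eval ![x, y, z]) h
    simpa using this
  have t1 : a1 ^ 3 + b1 ^ 3 = 0 := by linear_combination -(E 1 0 0)
  have t2 : a2 ^ 3 + b2 ^ 3 = 0 := by linear_combination -(E 0 1 0)
  have t3 : a3 ^ 3 + b3 ^ 3 = 0 := by linear_combination -(E 0 0 1)
  have t112 : 3 * (a1 ^ 2 * a2 + b1 ^ 2 * b2) = a := by
    linear_combination (-1 / 2 : ℂ) * E 1 1 0 + (1 / 2 : ℂ) * E 1 (-1) 0 - t2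
  have t221 : 3 * (a2 ^ 2 * a1 + b2 ^ 2 * b1) = b := by
    linear_combination (-1 / 2 : ℂ) * E 1 1 0 - (1 / 2 : ℂ) * E 1 (-1) 0 - t1
  have t113 : 3 * (a1 ^ 2 * a3 + b1 ^ 2 * b3) = a := by
    linear_combination (-1 / 2 : ℂ) * E 1 0 1 + (1 / 2 : ℂ) * E 1 0 (-1) - t3
  have t331 : 3 * (a3 ^ 2 * a1 + b3 ^ 2 * b1) = c := by
    linear_combination (-1 / 2 : ℂ) * E 1 0 1 - (1 / 2 : ℂ) * E 1 0 (-1) - t1
  have t223 : 3 * (a2 ^ 2 * a3 + b2 ^ 2 * b3) = b := by
    linear_combination (-1 / 2 : ℂ) * E 0 1 1 + (1 / 2 : ℂ) * E 0 1 (-1) - t3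
  have t332 : 3 * (a3 ^ 2 * a2 + b3 ^ 2 * b2) = c := by
    linear_combination (-1 / 2 : ℂ) * E 0 1 1 - (1 / 2 : ℂ) * E 0 1 (-1) - t2
  have t123 : 6 * (a1 * a2 * a3 + b1 * b2 * b3) = 1 + a + b + c := by
    linear_combination -(E 1 1 1) - t1 - t2 - t3 - t112 - t221 - t113 - t331 - t223 - t332
  have d1 := det_zero (t := a2 - a3) (s := b2 - b3) t1
    (by linear_combination (1 / 3 : ℂ) * t112 - (1 / 3 : ℂ) * t113)
  have d2 := det_zero (t := a1 - a3) (s := b1 - b3) t2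
    (by linear_combination (1 / 3 : ℂ) * t221 - (1 / 3 : ℂ) * t223)
  have d3 := det_zero (t := a1 - a2) (s := b1 - b2) t3
    (by linear_combination (1 / 3 : ℂ) * t331 - (1 / 3 : ℂ) * t332)
  have e12 : a1 * b2 = a2 * b1 := by linear_combination (-1 / 2 : ℂ) * d1 + (1 / 2 : ℂ) * d2 + (1 / 2 : ℂ) * d3
  have e13 : a1 * b3 = a3 * b1 := by linear_combination e12 + d1
  have e23 : a2 * b3 = a3 * b2 := by linear_combination e13 - d3
  have z1 := par_zero t1 (rfl : a1 * b1 = a1 * b1) e12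
  have z2 := par_zero t2 (rfl : a2 * b2 = a2 * b2) e12.symm
  have z3 := par_zero t3 (rfl : a3 * b3 = a3 * b3) e13.symm
  have z4 := par_zero t1 e12 e13
  have : (1 : ℂ) = 0 := by
    linear_combination -t123 + t112 + t221 + t331 + 6 * z4 - 3 * z1 - 3 * z2 - 3 * z3
  exact one_ne_zero this

theorem result : ∃ (n d : ℕ) (f g : MvPolynomial (Fin n) ℂ), 1 ≤ n ∧ 1 ≤ d ∧
    f ≠ 0 ∧ g ≠ 0 ∧ f.IsHomogeneous d ∧ g.IsHomogeneous (d - 1) ∧
    WR d (rename some f + X none * rename some g) <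
      d + ⨅ (v : MvPolynomial (Fin n) ℂ) (_ : v.IsHomogeneous 1), WR d (f + v * g) := by
  refine ⟨3, 3, X 0 * X 1 * X 2, X 0 * X 1 + X 1 * X 2 + X 0 * X 2, by norm_num, by norm_num,
    ?_, ?_, ?_, ?_, ?_⟩
  · intro h
    have := congrArg (eval ![1, 1, 1]) h
    simp at this
  · intro h
    have := congrArg (eval ![1, 1, 0]) h
    simp at this
  · exact ((isHomogeneous_X ℂ 0).mul (isHomogeneous_X ℂ 1)).mul (isHomogeneous_X ℂ 2)
  · exact (((isHomogeneous_X ℂ 0).mul (isHomogeneous_X ℂ 1)).add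
      ((isHomogeneous_X ℂ 1).mul (isHomogeneous_X ℂ 2))).add
      ((isHomogeneous_X ℂ 0).mul (isHomogeneous_X ℂ 2))
  · have h5 : WR 3 (rename some (X 0 * X 1 * X 2 : MvPolynomial (Fin 3) ℂ) +
        X none * rename some (X 0 * X 1 + X 1 * X 2 + X 0 * X 2 : MvPolynomial (Fin 3) ℂ)) ≤
        ((5 : ℕ) : ℕ∞) := by
      obtain ⟨r, hr⟩ := IsAlgClosed.exists_pow_nat_eq (1 / 12 : ℂ) (by norm_num : 0 < 3)
      obtain ⟨s, hs⟩ := IsAlgClosed.exists_pow_nat_eq (-1 / 24 : ℂ) (by norm_num : 0 < 3)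
      apply iInf₂_le 5
      have hx : ∀ i : Option (Fin 3), (X i : MvPolynomial (Option (Fin 3)) ℂ).IsHomogeneous 1 :=
        fun i => isHomogeneous_X ℂ i
      refine ⟨![C r * (X (some 0) + X (some 1) + X (some 2) + X none),
        C s * (X (some 1) + X (some 2) + X none - X (some 0)),
        C s * (X (some 0) + X (some 2) + X none - X (some 1)),
        C s * (X (some 0) + X (some 1) + X none - X (some 2)),
        C s * (X (some 0) + X (some 1) + X (some 2) - X none)], ?_, ?_⟩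
      · intro i
        fin_cases i
        · exact ((((hx _).add (hx _)).add (hx _)).add (hx _)).C_mul r
        all_goals exact ((((hx _).add (hx _)).add (hx _)).sub (hx _)).C_mul s
      · apply MvPolynomial.funext
        intro x
        simp only [Fin.sum_univ_succ, Fin.sum_univ_zero, map_add, map_mul, map_pow, map_sub,
          rename_X, eval_X, eval_C, Matrix.cons_val_zero, Matrix.cons_val_succ, mul_pow, hr, hs,
          map_zero]
        ring
    have h3 : ((3 : ℕ) : ℕ∞) ≤ ⨅ (v : MvPolynomial (Fin 3) ℂ) (_ : v.IsHomogeneous 1),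
        WR 3 (X 0 * X 1 * X 2 + v * (X 0 * X 1 + X 1 * X 2 + X 0 * X 2)) := by
      refine le_iInf₂ fun v hv => le_iInf₂ fun w ⟨l, hl, he⟩ => ?_
      by_contra hlt
      have hw : w < 3 := by
        rw [not_le] at hlt
        exact_mod_cast hlt
      have h0 : (0 : MvPolynomial (Fin 3) ℂ).IsHomogeneous 1 := isHomogeneous_zero _ _ _
      interval_cases w
      · exact no_two v 0 0 hv h0 h0 (by rw [he]; simp)
      · exact no_two v (l 0) 0 hv (hl 0) h0 (by rw [he]; simp)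
      · exact no_two v (l 0) (l 1) hv (hl 0) (hl 1) (by rw [he]; simp)
    refine lt_of_le_of_lt h5 (lt_of_lt_of_le ?_ (add_le_add_right h3 _))
    norm_num

end Pool.Agent.Results.MP_1e0c69_ag.Counterexample
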